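import Pool.Agent.Helper92.FR.Common

/-! Parts P20 and P21. -/

open Polynomial Filter

namespace Pool.Agent.Helper92.FR

open Pool.Agent.Helper20.FR

universe u

variable {k : Type u} [Field k]

/-- the polynomial with coefficients `x` -/
noncomputable def toP {n : ℕ} (x : Fin (n + 1) → k[X]) : k[X][X] :=
  ∑ i : Fin (n + 1), monomial (i : ℕ) (x i)

lemma toP_coeff {n : ℕ} (x : Fin (n + 1) → k[X]) (i : Fin (n + 1)) :
    (toP x).coeff (i : ℕ) = x i := by
  rw [toP, finsetSum_coeff]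
  simp only [coeff_monomial]
  rw [Finset.sum_eq_single i]
  · simp
  · intro j _ hj
    rw [if_neg]
    intro h
    exact hj (Fin.ext h)
  · intro h
    exact absurd (Finset.mem_univ i) h

lemma toP_natDegree {n : ℕ} (x : Fin (n + 1) → k[X]) : (toP x).natDegree ≤ n := by
  apply natDegree_sum_le_of_forall_le
  intro i _
  exact (natDegree_monomial_le _).trans (by omega)

lemma toP_injective {n : ℕ} : Function.Injective (toP : (Fin (n + 1) → k[X]) → k[X][X]) := by
  intro x y h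
  ext1 i
  rw [← toP_coeff x i, ← toP_coeff y i, h]

lemma toP_surj {n : ℕ} {P : k[X][X]} (hP : P.natDegree ≤ n) :
    toP (fun i : Fin (n + 1) => P.coeff (i : ℕ)) = P := by
  ext1 i
  by_cases hi : i < n + 1
  · exact toP_coeff (fun i : Fin (n + 1) => P.coeff (i : ℕ)) ⟨i, hi⟩
  · rw [coeff_eq_zero_of_natDegree_lt (lt_of_le_of_lt (toP_natDegree _) (by omega)),
      coeff_eq_zero_of_natDegree_lt (by omega)]

lemma toP_zero {n : ℕ} : toP (0 : Fin (n + 1) → k[X]) = 0 := by
  simp [toP]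

lemma toP_ev {n : ℕ} (x : Fin (n + 1) → k[X]) (ξ : LaurentSeries k) (e : Unit) :
    (toP x).eval₂ iot ξ = Uv (rowU n ξ) x e := by
  rw [toP, eval₂_finsetSum, Uv, Matrix.mulVec, dotProduct]
  refine Finset.sum_congr rfl fun i _ => ?_
  rw [eval₂_monomial, rowU, Matrix.of_apply, mul_comm]

variable [Finite k]

lemma polyHeight_toP {n : ℕ} {x : Fin (n + 1) → k[X]} (hx : x ≠ 0) :
    polyHeight (toP x) = (Nat.card k : ℝ) ^ (hgt x : ℝ) := by
  have key : ∀ i : ℕ, nrm (iot ((toP x).coeff i)) ≤ (Nat.card k : ℝ) ^ (hgt x : ℝ) := by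
    intro i
    rw [nrm_le_iff]
    by_cases hi : i < n + 1
    · have h1 := toP_coeff x ⟨i, hi⟩
      simp only at h1
      rw [h1]
      apply (DLe_iot _).mono
      have : (x ⟨i, hi⟩).natDegree ≤ hgt x :=
        Finset.le_sup (f := fun i => (x i).natDegree) (Finset.mem_univ _)
      exact_mod_cast this
    · rw [coeff_eq_zero_of_natDegree_lt (lt_of_le_of_lt (toP_natDegree _) (by omega)), map_zero]
      exact DLe_zero _
  apply le_antisymm
  · exact ciSup_le key
  · obtain ⟨i, hi, hi'⟩ := exists_hgt hx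
    refine le_ciSup_of_le ⟨_, Set.forall_mem_range.2 key⟩ (i : ℕ) ?_
    rw [toP_coeff, nrm_of_ne (by rwa [Ne, iot_eq_zero]), dg_iot hi, hi']
    simp

lemma w_set_eq (ξ : LaurentSeries k) (n : ℕ)
    (h0 : ∀ x : Fin (n + 1) → k[X], x ≠ 0 → Uv (rowU n ξ) x ≠ 0) (w : ℝ) :
    {P : k[X][X] | P.natDegree ≤ n ∧
      0 < nrm (P.eval₂ iot ξ) ∧ nrm (P.eval₂ iot ξ) ≤ polyHeight P ^ (-w)} =
    toP '' {x : Fin (n + 1) → k[X] | x ≠ 0 ∧ VLe (Uv (rowU n ξ) x) (-w * hgt x)} := by
  have key : ∀ x : Fin (n + 1) → k[X], x ≠ 0 → (nrm ((toP x).eval₂ iot ξ) ≤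
      polyHeight (toP x) ^ (-w) ↔ VLe (Uv (rowU n ξ) x) (-w * hgt x)) := by
    intro x hx
    rw [polyHeight_toP hx, ← Real.rpow_mul q_pos.le, nrm_le_iff, mul_comm]
    constructor
    · intro h e
      rw [← toP_ev x ξ e]
      exact h
    · intro h
      rw [toP_ev x ξ ()]
      exact h ()
  ext P
  constructor
  · rintro ⟨h1, h2, h3⟩
    refine ⟨fun i : Fin (n + 1) => P.coeff (i : ℕ), ?_, toP_surj h1⟩
    have hne : (fun i : Fin (n + 1) => P.coeff (i : ℕ)) ≠ 0 := by
      intro h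
      have := toP_surj h1
      rw [h, toP_zero] at this
      rw [← this, eval₂_zero, nrm_zero'] at h2
      exact lt_irrefl _ h2
    refine ⟨hne, ?_⟩
    rw [← key _ hne, toP_surj h1]
    exact h3
  · rintro ⟨x, ⟨hx, hx'⟩, rfl⟩
    refine ⟨toP_natDegree x, ?_, (key x hx).2 hx'⟩
    rw [nrm_pos_iff, toP_ev x ξ ()]
    intro h
    apply h0 x hx
    funext e
    cases e
    exact h

omit [Finite k] in
lemma anti_aux {N E : Type} [Fintype N] (U : Matrix E N (LaurentSeries k)) :
    Antitone fun w : ℝ => {x : N → k[X] | x ≠ 0 ∧ VLe (Uv U x) (-w * hgt x)} := by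
  intro w w' hw x hx
  refine ⟨hx.1, hx.2.mono ?_⟩
  have : (0 : ℝ) ≤ hgt x := Nat.cast_nonneg _
  nlinarith

lemma fin_aux {N E : Type} [Fintype N] [Finite E] (U : Matrix E N (LaurentSeries k))
    (h0 : ∀ x : N → k[X], x ≠ 0 → Uv U x ≠ 0) (C : ℝ)
    (hC : ∀ x : N → k[X], x ≠ 0 → -C * (hgt x + 1) ≤ vdeg (Uv U x)) (w : ℝ) (hw : w > C) :
    {x : N → k[X] | x ≠ 0 ∧ VLe (Uv U x) (-w * hgt x)}.Finite := by
  obtain ⟨m, hm⟩ := exists_nat_ge (C / (w - C))
  apply (finite_hgt_le (ι := N) (k := k) m).subset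
  rintro x ⟨hx, hx'⟩
  have h1 := (VLe_iff (h0 x hx)).1 hx'
  have h2 := hC x hx
  have h3 : (w - C) * hgt x ≤ C := by nlinarith
  have h4 : 0 < w - C := by linarith
  have h5 : (hgt x : ℝ) ≤ m := by
    refine le_trans ?_ hm
    rw [le_div_iff₀ h4]
    linarith
  exact_mod_cast h5

theorem w1_thm : S_W1.{u} := by
  intro k _ _ ξ n hn h0 C hC
  set A : ℝ → Set (Fin (n + 1) → k[X]) := fun w =>
    {x : Fin (n + 1) → k[X] | x ≠ 0 ∧ VLe (Uv (rowU n ξ) x) (-w * hgt x)} with hA
  have hinf : ∀ w < 0, (A w).Infinite := by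
    intro w hw
    have h : ∀ a : k[X], ∃ b : k[X], DLe (iot a * ξ - iot b) (-1) := fun a =>
      exists_polypart _
    choose b hb using h
    let i0 : Fin (n + 1) := ⟨0, by omega⟩
    let i1 : Fin (n + 1) := ⟨1, by omega⟩
    have h01 : i0 ≠ i1 := by simp [i0, i1, Fin.ext_iff]
    let x : k[X] → (Fin (n + 1) → k[X]) := fun a =>
      Function.update (Function.update 0 i1 a) i0 (-b a)
    have hx1 : ∀ a, x a i1 = a := by
      intro a
      simp [x, Function.update_of_ne h01.symm]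
    have hinj : Function.Injective fun a : {a : k[X] // a ≠ 0} => x a := by
      intro a a' h
      have : x a i1 = x a' i1 := congrFun h i1
      rw [hx1, hx1] at this
      exact Subtype.ext this
    have : Infinite {a : k[X] // a ≠ 0} := by
      have : ({0}ᶜ : Set k[X]).Infinite := (Set.finite_singleton 0).infinite_compl
      exact this.to_subtype
    apply Set.infinite_of_injective_forall_mem hinj
    rintro ⟨a, ha⟩
    refine ⟨fun h => ha ?_, ?_⟩
    · rw [← hx1 a]
      exact congrFun h i1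
    · intro e
      have h1 : Uv (rowU n ξ) (x a) e = iot a * ξ - iot (b a) := by
        rw [Uv, Matrix.mulVec, dotProduct, Finset.sum_eq_add i0 i1 h01]
        · rw [hx1]
          simp [x, rowU, i0, i1]
          ring
        · rintro j - ⟨hj0, hj1⟩
          simp [x, Function.update_of_ne hj0, Function.update_of_ne hj1]
        · simp
        · simp
      rw [h1]
      apply (hb a).mono
      have : (0 : ℝ) ≤ hgt (x a) := Nat.cast_nonneg _
      nlinarith
  obtain ⟨w, hw0, hw1, hw2, hw3⟩ := expo A (anti_aux _) C (fin_aux _ h0 C hC) hinf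
  refine ⟨w, hw0, ?_, hw2, hw3⟩
  rw [← hw1, wExp]
  congr 1
  ext e
  refine exists_congr fun w' => and_congr_right fun _ => ?_
  rw [w_set_eq ξ n h0 w', Set.infinite_image_iff toP_injective.injOn]

omit [Finite k] in
lemma simU_apply (n : ℕ) (ξ : LaurentSeries k) (x : Fin (n + 1) → k[X]) (i : Fin n) :
    Uv (simU n ξ) x i = iot (x 0) * ξ ^ ((i : ℕ) + 1) - iot (x i.succ) := by
  rw [Uv, Matrix.mulVec, dotProduct, Finset.sum_eq_add (0 : Fin (n + 1)) i.succ
    (Fin.succ_ne_zero i).symm]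
  · simp [simU]
    ring
  · rintro j - ⟨hj0, hj1⟩
    have h0 : (j : ℕ) ≠ 0 := fun h => hj0 (Fin.ext h)
    have h1 : (j : ℕ) ≠ i + 1 := fun h => hj1 (Fin.ext (by simpa using h))
    rw [simU, Matrix.of_apply, if_neg h0, if_neg h1, zero_mul]
  · simp
  · simp

theorem l1_thm : S_L1.{u} := by
  intro k _ _ ξ n hn h0 C hC
  have : Nonempty (Fin n) := ⟨⟨0, by omega⟩⟩
  set A : ℝ → Set (Fin (n + 1) → k[X]) := fun w =>
    {x : Fin (n + 1) → k[X] | x ≠ 0 ∧ VLe (Uv (simU n ξ) x) (-w * hgt x)} with hA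
  have hinf : ∀ w < 0, (A w).Infinite := by
    intro w hw
    have h : ∀ (a : k[X]) (i : ℕ), ∃ b : k[X], DLe (iot a * ξ ^ (i + 1) - iot b) (-1) := fun a i =>
      exists_polypart _
    choose b hb using h
    let x : k[X] → (Fin (n + 1) → k[X]) := fun a => Fin.cons a fun i => b a i
    have hx1 : ∀ a, x a 0 = a := by
      intro a
      simp [x]
    have hinj : Function.Injective fun a : {a : k[X] // a ≠ 0} => x a := by
      intro a a' h
      have : x a 0 = x a' 0 := congrFun h 0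
      rw [hx1, hx1] at this
      exact Subtype.ext this
    have : Infinite {a : k[X] // a ≠ 0} := by
      have : ({0}ᶜ : Set k[X]).Infinite := (Set.finite_singleton 0).infinite_compl
      exact this.to_subtype
    apply Set.infinite_of_injective_forall_mem hinj
    rintro ⟨a, ha⟩
    refine ⟨fun h => ha ?_, ?_⟩
    · rw [← hx1 a]
      exact congrFun h 0
    · intro i
      have h1 : Uv (simU n ξ) (x a) i = iot a * ξ ^ ((i : ℕ) + 1) - iot (b a i) := by
        rw [simU_apply, hx1]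
        simp [x]
      rw [h1]
      apply (hb a i).mono
      have : (0 : ℝ) ≤ hgt (x a) := Nat.cast_nonneg _
      nlinarith
  obtain ⟨w, hw0, hw1, hw2, hw3⟩ := expo A (anti_aux _) C (fin_aux _ h0 C hC) hinf
  refine ⟨w, hw0, ?_, hw2, hw3⟩
  rw [← hw1, lExp]
  congr 1
  ext e
  refine exists_congr fun w' => and_congr_right fun _ => ?_
  have hset : {x : Fin (n + 1) → k[X] |
      0 < (⨆ i : Fin n, nrm (iot (x 0) * ξ ^ ((i : ℕ) + 1) - iot (x i.succ))) ∧
      (⨆ i : Fin n, nrm (iot (x 0) * ξ ^ ((i : ℕ) + 1) - iot (x i.succ))) ≤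
        vecHeight x ^ (-w')} = A w' := by
    ext x
    have hv : (fun i : Fin n => iot (x 0) * ξ ^ ((i : ℕ) + 1) - iot (x i.succ)) =
        Uv (simU n ξ) x := by
      funext i
      rw [simU_apply]
    by_cases hx : x = 0
    · subst hx
      simp [hA, nrm_zero']
    · have e1 := sup_nrm_pos_iff (v := Uv (simU n ξ) x)
      rw [← hv] at e1
      have e2 := sup_nrm_le_iff (v := Uv (simU n ξ) x) (d := -w' * hgt x)
      rw [← hv] at e2
      have e3 : vecHeight x ^ (-w') = (Nat.card k : ℝ) ^ (-w' * hgt x) := by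
        rw [vecHeight, sup_nrm_iot hx, ← Real.rpow_mul q_pos.le, mul_comm]
      rw [Set.mem_ofPred_eq, e3]
      rw [e1, e2, hv]
      exact ⟨fun h => ⟨hx, h.2⟩, fun h => ⟨h0 x hx, h.2⟩⟩
  rw [hset]

end Pool.Agent.Helper92.FR
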