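import Pool.Agent.Helper92.FR.P20

/-! Part P22. -/

open Polynomial Filter

namespace Pool.Agent.Helper92.FR

open Pool.Agent.Helper20.FR

universe u

variable {k : Type u} [Field k]

lemma Hp_toP {n : ℕ} (x : Fin (n + 1) → k[X]) : Hp (toP x) = hgt x := by
  apply le_antisymm
  · apply Finset.sup_le
    intro i _
    by_cases hi : i < n + 1
    · have h1 := toP_coeff x ⟨i, hi⟩
      simp only at h1
      rw [h1]
      exact Finset.le_sup (f := fun i => (x i).natDegree) (Finset.mem_univ _)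
    · rw [coeff_eq_zero_of_natDegree_lt (lt_of_le_of_lt (toP_natDegree _) (by omega))]
      simp
  · apply Finset.sup_le
    intro i _
    by_cases h : x i = 0
    · rw [h, natDegree_zero]
      exact Nat.zero_le _
    · have h1 := toP_coeff x i
      have h2 : (i : ℕ) ∈ (toP x).support := by
        rw [mem_support_iff, h1]
        exact h
      have h3 := Finset.le_sup (f := fun i => ((toP x).coeff i).natDegree) h2
      simp only [h1] at h3
      exact h3

lemma polyHeight_eq [Finite k] {P : k[X][X]} (hP : P ≠ 0) :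
    polyHeight P = (Nat.card k : ℝ) ^ (Hp P : ℝ) := by
  have h := toP_surj (n := P.natDegree) (P := P) le_rfl
  set x : Fin (P.natDegree + 1) → k[X] := fun i => P.coeff (i : ℕ) with hx
  have hx0 : x ≠ 0 := by
    intro h0
    rw [h0, toP_zero] at h
    exact hP h.symm
  have h1 := polyHeight_toP hx0
  rw [h, ← Hp_toP, h] at h1
  exact h1

lemma finite_Hp_le [Finite k] (n h : ℕ) : {P : k[X][X] | P.natDegree ≤ n ∧ Hp P ≤ h}.Finite := by
  apply ((finite_hgt_le (ι := Fin (n + 1)) (k := k) h).image toP).subset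
  rintro P ⟨h1, h2⟩
  refine ⟨fun i : Fin (n + 1) => P.coeff (i : ℕ), ?_, toP_surj h1⟩
  rw [Set.mem_ofPred_eq, ← Hp_toP, toP_surj h1]
  exact h2

/-- the sets in the definition of `w_n` in terms of degrees -/
lemma w_set_eq' [Finite k] (ξ : LaurentSeries k) (n : ℕ) (w : ℝ) :
    {P : k[X][X] | P.natDegree ≤ n ∧
      0 < nrm (P.eval₂ iot ξ) ∧ nrm (P.eval₂ iot ξ) ≤ polyHeight P ^ (-w)} =
    {P : k[X][X] | P.natDegree ≤ n ∧ ev ξ P ≠ 0 ∧ (dg (ev ξ P) : ℝ) ≤ -w * Hp P} := by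
  ext P
  refine and_congr_right fun _ => ?_
  rw [nrm_pos_iff]
  refine and_congr_right fun h0 => ?_
  have hP : P ≠ 0 := by
    rintro rfl
    exact h0 (by simp)
  rw [polyHeight_eq hP, ← Real.rpow_mul q_pos.le, nrm_le_iff, mul_comm, DLe_iff h0]
  rfl

theorem w2_thm (hLI : S_LI.{u}) (hDI : S_DI.{u}) : S_W2.{u} := by
  intro k _ _ ξ f hf hfξ hmin n hn hdn hd
  set d := f.natDegree with hd_def
  set A : ℝ → Set k[X][X] := fun w =>
    {P : k[X][X] | P.natDegree ≤ n ∧ ev ξ P ≠ 0 ∧ (dg (ev ξ P) : ℝ) ≤ -w * Hp P} with hA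
  have hanti : Antitone A := by
    intro w w' hw P hP
    refine ⟨hP.1, hP.2.1, hP.2.2.trans ?_⟩
    have : (0 : ℝ) ≤ Hp P := Nat.cast_nonneg _
    nlinarith
  have hdc : ((d - 1 : ℕ) : ℝ) = (d : ℝ) - 1 := by
    rw [Nat.cast_sub (by omega), Nat.cast_one]
  have hfin : ∀ w > ((d - 1 : ℕ) : ℝ), (A w).Finite := by
    intro w hw
    rw [hdc] at hw
    obtain ⟨c, hc⟩ := hLI k ξ f hf hfξ hmin n
    have h4 : 0 < w - ((d : ℝ) - 1) := by linarith
    obtain ⟨m, hm⟩ := exists_nat_ge (c / (w - ((d : ℝ) - 1)))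
    apply (finite_Hp_le (k := k) n m).subset
    rintro P ⟨h1, h2, h3⟩
    refine ⟨h1, ?_⟩
    have h5 := hc P h1 h2
    have h6 : (Hp P : ℝ) ≤ m := by
      refine le_trans ?_ hm
      rw [le_div_iff₀ h4]
      nlinarith
    exact_mod_cast h6
  have hinf0 : ∀ w : ℝ, 0 ≤ w → w < ((d - 1 : ℕ) : ℝ) → (A w).Infinite := by
    intro w hw0 hw
    rw [hdc] at hw
    obtain ⟨c, hc⟩ := hDI k ξ (d - 1)
    intro hfinite
    -- the degrees of the values are bounded below on a finite set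
    obtain ⟨m, hm⟩ : ∃ m : ℝ, ∀ P ∈ A w, m ≤ (dg (ev ξ P) : ℝ) := by
      obtain ⟨m, hm⟩ := (hfinite.image fun P => (dg (ev ξ P) : ℝ)).bddBelow
      exact ⟨m, fun P hP => hm ⟨P, hP, rfl⟩⟩
    have h4 : 0 < (d : ℝ) - 1 - w := by linarith
    have h4' : 0 < (d : ℝ) - 1 := by linarith
    obtain ⟨h, hh⟩ := exists_nat_gt (max (c / ((d : ℝ) - 1 - w)) ((c - m) / ((d : ℝ) - 1)))
    have hh1 := (le_max_left _ _).trans_lt hh
    have hh2 := (le_max_right _ _).trans_lt hh
    rw [div_lt_iff₀ h4] at hh1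
    rw [div_lt_iff₀ h4'] at hh2
    obtain ⟨P, hP0, hPd, hPh, hPv⟩ := hc h
    have hev : ev ξ P ≠ 0 := by
      intro h0
      have := hmin P hP0 h0
      omega
    rw [hdc] at hPv
    have h5 := (DLe_iff hev).1 hPv
    have hmem : P ∈ A w := by
      refine ⟨by omega, hev, h5.trans ?_⟩
      have h6 : (Hp P : ℝ) ≤ h := by exact_mod_cast hPh
      nlinarith
    have h7 := hm P hmem
    nlinarith
  have hd1 : (0 : ℝ) < ((d - 1 : ℕ) : ℝ) := by
    have : 0 < d - 1 := by omega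
    exact_mod_cast this
  have hinf : ∀ w < ((d - 1 : ℕ) : ℝ), (A w).Infinite := by
    intro w hw
    rcases le_or_gt 0 w with h | h
    · exact hinf0 w h hw
    · exact Set.Infinite.mono (hanti h.le) (hinf0 0 le_rfl hd1)
  have hset : wExp n ξ = sSup {e : EReal | ∃ w : ℝ, e = (w : EReal) ∧ (A w).Infinite} := by
    rw [wExp]
    congr 1
    ext e
    refine exists_congr fun w' => and_congr_right fun _ => ?_
    rw [w_set_eq' ξ n w']
  rw [hset]
  apply le_antisymm
  · apply sSup_le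
    rintro e ⟨w, rfl, hw⟩
    have : w ≤ ((d - 1 : ℕ) : ℝ) := by
      by_contra h
      exact hw (hfin w (not_le.1 h))
    exact_mod_cast this
  · apply le_of_forall_lt
    intro c hc
    obtain ⟨c', hc1, hc2⟩ := EReal.lt_iff_exists_real_btwn.1 hc
    refine lt_of_lt_of_le hc1 (le_sSup ⟨c', rfl, hinf c' ?_⟩)
    exact_mod_cast hc2

end Pool.Agent.Helper92.FR
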