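import Pool.Agent.Helper20.FR.Spec

/-! Common lemmas on absolute values, heights and exponents. -/

open Polynomial Filter

namespace Pool.Agent.Helper92.FR

open Pool.Agent.Helper20.FR

universe u

section

variable {k : Type u} [Field k]

lemma nrm_zero' : nrm (0 : LaurentSeries k) = 0 := by
  simp [nrm]

lemma nrm_of_ne {z : LaurentSeries k} (hz : z ≠ 0) :
    nrm z = (Nat.card k : ℝ) ^ ((dg z : ℤ) : ℝ) := by
  rw [nrm, if_neg hz, dg, Real.rpow_intCast]

variable [Finite k]

lemma one_lt_q : (1 : ℝ) < Nat.card k := by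
  exact_mod_cast (Finite.one_lt_card : 1 < Nat.card k)

lemma q_pos : (0 : ℝ) < Nat.card k := lt_trans one_pos one_lt_q

lemma nrm_nonneg (z : LaurentSeries k) : 0 ≤ nrm z := by
  by_cases hz : z = 0
  · rw [hz, nrm_zero']
  · rw [nrm_of_ne hz]
    exact Real.rpow_nonneg q_pos.le _

lemma nrm_pos_iff {z : LaurentSeries k} : 0 < nrm z ↔ z ≠ 0 := by
  constructor
  · rintro h rfl
    rw [nrm_zero'] at h
    exact lt_irrefl _ h
  · intro hz
    rw [nrm_of_ne hz]
    exact Real.rpow_pos_of_pos q_pos _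

lemma nrm_le_iff {z : LaurentSeries k} {d : ℝ} : nrm z ≤ (Nat.card k : ℝ) ^ d ↔ DLe z d := by
  by_cases hz : z = 0
  · subst hz
    rw [nrm_zero']
    exact ⟨fun _ => DLe_zero _, fun _ => Real.rpow_nonneg q_pos.le _⟩
  · rw [nrm_of_ne hz, DLe_iff hz, Real.rpow_le_rpow_left_iff one_lt_q]

variable {ι : Type} [Finite ι] [Nonempty ι]

lemma sup_nrm_le_iff {v : ι → LaurentSeries k} {d : ℝ} :
    (⨆ i, nrm (v i)) ≤ (Nat.card k : ℝ) ^ d ↔ VLe v d := by
  rw [ciSup_le_iff (Set.finite_range _).bddAbove]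
  exact forall_congr' fun i => nrm_le_iff

lemma sup_nrm_pos_iff {v : ι → LaurentSeries k} :
    0 < (⨆ i, nrm (v i)) ↔ v ≠ 0 := by
  rw [lt_ciSup_iff (Set.finite_range _).bddAbove, Function.ne_iff]
  exact exists_congr fun i => nrm_pos_iff

omit [Finite k] [Finite ι] in
/-- the height is attained at a nonzero coordinate -/
lemma exists_hgt [Fintype ι] {x : ι → k[X]} (hx : x ≠ 0) :
    ∃ i, x i ≠ 0 ∧ (x i).natDegree = hgt x := by
  obtain ⟨i, _, hi⟩ := Finset.exists_mem_eq_sup (Finset.univ : Finset ι) Finset.univ_nonempty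
    (fun i => (x i).natDegree)
  by_cases h : x i = 0
  · obtain ⟨j, hj⟩ := Function.ne_iff.1 hx
    refine ⟨j, hj, ?_⟩
    have h1 : (x j).natDegree ≤ hgt x :=
      Finset.le_sup (f := fun i => (x i).natDegree) (Finset.mem_univ j)
    have h2 : hgt x = 0 := by
      rw [hgt, hi, h, natDegree_zero]
    omega
  · exact ⟨i, h, hi.symm⟩

lemma sup_nrm_iot [Fintype ι] {x : ι → k[X]} (hx : x ≠ 0) :
    (⨆ i, nrm (iot (x i))) = (Nat.card k : ℝ) ^ (hgt x : ℝ) := by
  apply le_antisymm
  · rw [sup_nrm_le_iff (v := fun i => iot (x i))]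
    intro i
    apply (DLe_iot (x i)).mono
    have : (x i).natDegree ≤ hgt x :=
      Finset.le_sup (f := fun i => (x i).natDegree) (Finset.mem_univ i)
    exact_mod_cast this
  · obtain ⟨i, hi, hi'⟩ := exists_hgt hx
    refine le_ciSup_of_le (Set.finite_range _).bddAbove i ?_
    rw [nrm_of_ne (by rwa [Ne, iot_eq_zero]), dg_iot hi, hi']
    simp

lemma finite_natDegree_le (h : ℕ) : {p : k[X] | p.natDegree ≤ h}.Finite := by
  apply Set.Finite.of_injOn (f := fun p : k[X] => (fun i : Fin (h + 1) => p.coeff i))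
    (t := Set.univ) (fun _ _ => Set.mem_univ _) ?_ (Set.toFinite _)
  intro p hp q hq hpq
  ext i
  by_cases hi : i < h + 1
  · exact congrFun hpq ⟨i, hi⟩
  · have hp' : p.natDegree ≤ h := hp
    have hq' : q.natDegree ≤ h := hq
    rw [coeff_eq_zero_of_natDegree_lt (by omega), coeff_eq_zero_of_natDegree_lt (by omega)]

omit [Nonempty ι] in
lemma finite_hgt_le [Fintype ι] (h : ℕ) : {x : ι → k[X] | hgt x ≤ h}.Finite := by
  apply (Set.Finite.pi' (ι := ι) (t := fun _ => {p : k[X] | p.natDegree ≤ h})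
    fun _ => finite_natDegree_le h).subset
  intro x hx i
  have h1 : (x i).natDegree ≤ hgt x :=
    Finset.le_sup (f := fun i => (x i).natDegree) (Finset.mem_univ i)
  exact le_trans h1 hx

omit [Finite k] in
/-- the polynomial part -/
lemma exists_polypart (z : LaurentSeries k) : ∃ b : k[X], DLe (z - iot b) (-1) := by
  classical
  set N : ℕ := (dg z).toNat with hN
  refine ⟨∑ i ∈ Finset.range (N + 1), monomial i (z.coeff (-(i:ℤ))), ?_⟩
  intro m hm
  have hm0 : m ≤ 0 := by
    have : m < 1 := by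
      have : (m : ℝ) < 1 := by linarith
      exact_mod_cast this
    omega
  obtain ⟨j, rfl⟩ : ∃ j : ℕ, m = -(j:ℤ) := ⟨m.natAbs, by omega⟩
  rw [HahnSeries.coeff_sub, iot_coeff_neg, finsetSum_coeff]
  simp only [coeff_monomial, Finset.sum_ite_eq', Finset.mem_range]
  split_ifs with hj
  · simp
  · rw [sub_zero]
    have h1 := DLe_self z
    apply h1
    push_cast
    have h2 : (dg z : ℝ) ≤ N := by exact_mod_cast Int.self_le_toNat (dg z)
    have h3 : ((N : ℝ)) + 1 ≤ j := by exact_mod_cast (not_lt.1 hj)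
    linarith

end

/-- abstract exponents -/
lemma expo {S : Type*} (A : ℝ → Set S) (hanti : Antitone A) (C : ℝ)
    (hfin : ∀ w > C, (A w).Finite) (hinf : ∀ w < 0, (A w).Infinite) :
    ∃ w : ℝ, 0 ≤ w ∧ sSup {e : EReal | ∃ w' : ℝ, e = (w' : EReal) ∧ (A w').Infinite} = w ∧
      (∀ w' < w, (A w').Infinite) ∧ (∀ w' > w, (A w').Finite) := by
  set B : Set ℝ := {w | (A w).Infinite} with hB
  have hne : B.Nonempty := ⟨-1, hinf (-1) (by norm_num)⟩
  have hbdd : BddAbove B := by
    refine ⟨C, fun w hw => ?_⟩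
    by_contra h
    exact hw (hfin w (not_le.1 h))
  have h1 : ∀ w' < sSup B, (A w').Infinite := by
    intro w' hw'
    obtain ⟨b, hb, hb'⟩ := exists_lt_of_lt_csSup hne hw'
    exact Set.Infinite.mono (hanti hb'.le) hb
  have h2 : ∀ w' > sSup B, (A w').Finite := by
    intro w' hw'
    by_contra h
    exact absurd (le_csSup hbdd (show w' ∈ B from h)) (not_le.2 hw')
  refine ⟨sSup B, ?_, ?_, h1, h2⟩
  · by_contra h
    push Not at h
    have h3 := h2 (sSup B / 2) (by linarith)
    exact hinf (sSup B / 2) (by linarith) h3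
  · apply le_antisymm
    · apply sSup_le
      rintro e ⟨w', rfl, hw'⟩
      exact_mod_cast le_csSup hbdd hw'
    · apply le_of_forall_lt
      intro c hc
      obtain ⟨c', hc1, hc2⟩ := EReal.lt_iff_exists_real_btwn.1 hc
      refine lt_of_lt_of_le hc1 (le_sSup ⟨c', rfl, h1 c' ?_⟩)
      exact_mod_cast hc2

end Pool.Agent.Helper92.FR
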